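import Pool.Agent.Lib.MP_51bb46_lc.D.FinalD

namespace Pool.Agent.Results.MP_51bb46_lc.FregeOverLongFormulas

open Fr56 FrC

/-- For every `ε > 0` there are `w` and unsatisfiable CNFs `F n` of width `w`, of unbounded size, such
that for every `d` there is `c > 0` such that for every finite set `R` of sound schematic rules over
`¬, ∧, ∨` and every contradiction `b`, for all large `n`, every derivation `π` of `b` from `F n` by
the rules `R`, in which each line arises from a formula of depth at most `d` by substituting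
arbitrary formulas of size at most `|F n| ^ (2 - ε)` for its variables, has total size at least
`2 ^ (|F n| ^ c)`. -/
theorem result (ε : ℝ) (hε : 0 < ε) : ∃ (w : ℕ) (F : ℕ → Fm ℕ),
    (∀ n, (F n).Unsat ∧ (F n).IsCNF w ∧ n ≤ (F n).size) ∧
    ∀ d : ℕ, ∃ c : ℝ, 0 < c ∧ ∀ R : List Rule, (∀ r ∈ R, r.Sound) → ∀ b : Fm ℕ, b.Unsat →
      ∃ n₀, ∀ n ≥ n₀, ∀ π : List (Fm ℕ), IsDerivation R (F n) π → b ∈ π →
        (∀ A ∈ π, ∃ (B : Fm ℕ) (σ : ℕ → Fm ℕ), A = B.subst σ ∧ depth B ≤ d ∧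
          ∀ v, ((σ v).size : ℝ) ≤ ((F n).size : ℝ) ^ (2 - ε)) →
        (2 : ℝ) ^ (((F n).size : ℝ) ^ c) ≤ ((π.map Fm.size).sum : ℕ) :=
  FrD.main_exp ε hε

end Pool.Agent.Results.MP_51bb46_lc.FregeOverLongFormulas
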