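import Pool.Agent.Lib.MP_51bb46_lc.U.FinalU

namespace Pool.Agent.Results.MP_51bb46_lc.LineSizeTradeoff

open Fr56 FrC FrG FrT

/-- There are a constant `C` and unsatisfiable 3-CNFs `F n`, of unbounded size, such that for every
finite set `R` of sound schematic rules over `¬, ∧, ∨` and every contradiction `b`, for all large
`n`, the following holds for all `d, κ ≥ 1` and `M ≥ 2`.  Call a formula shallow if each of its
subformulas computes a function of decision tree depth at most `κ`.  Let `π` be a derivation of `b`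
by the rules `R` from `F n`, its clauses (all its parts) and all shallow tautologies, in which each
line has at most `M` distinct subformulas and arises from a formula of depth at most `d` by
substituting shallow formulas for its variables.  Then `M` times the number of distinct lines is
at least `2 ^ (|F n| / (κ · (log |F n|) ^ (C d) · (log M) ^ (d - 1)))` (logarithms to base 2). -/
theorem result : ∃ (C : ℕ) (F : ℕ → Fm ℕ),
    (∀ n, (F n).Unsat ∧ (F n).IsCNF 3 ∧ n ≤ (F n).size) ∧
    ∀ R : List Rule, (∀ r ∈ R, r.Sound) → ∀ b : Fm ℕ, b.Unsat →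
      ∃ n₀, ∀ n ≥ n₀, ∀ d κ M : ℕ, 1 ≤ d → 1 ≤ κ → 2 ≤ M → ∀ π : List (Fm ℕ),
        Derives R (parts (F n) ∪ {A | Shallow κ A ∧ ∀ x, A.eval x = true}) π → b ∈ π →
        (∀ A ∈ π, {f | f ∈ A.subs}.ncard ≤ M ∧ ∃ (B : Fm ℕ) (σ : ℕ → Fm ℕ), A = B.subst σ ∧
          FrC.depth B ≤ d ∧ ∀ v, Shallow κ (σ v)) →
        (2 : ℝ) ^ (((F n).size : ℝ) / (κ * Real.logb 2 (F n).size ^ (C * d) *
          Real.logb 2 M ^ (d - 1))) ≤ (M : ℝ) * ({A | A ∈ π}.ncard : ℕ) :=
  FrU.main_U

end Pool.Agent.Results.MP_51bb46_lc.LineSizeTradeoff
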