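import Pool.Agent.Lib.MP_51bb46_lc.N.Fin

namespace Pool.Agent.Results.MP_51bb46_lc.ModGates

open Fr56 FrM FrN

/-- For every `ε > 0` there are `w` and unsatisfiable `w`-CNFs `F n`, of size at least `n`, such that for
every `d` there is `c > 0` such that for all large `n` and all odd primes `p`, with
`κ = |F n| ^ c`, the following holds.  Consider formulas over `¬, ∧, ∨` and gates of unbounded
fan-in, where a gate applies a Boolean function to formulas; call a formula local if at most
`|F n| ^ (1 - ε)` variables occur in it.  Let `π` be a derivation from `F n` and all local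
tautologies by sound schematic inferences of size at most `κ` that contains an unsatisfiable
line with at most `κ` connectives and gates, such that each line `A` is obtained by substituting
local formulas (with any gates, of any depth) for the variables of a formula `B`
with the following properties: `B` contains at most `κ` gates (counted as distinct subformulas,
also inside of other gates), each of these is a polynomial of degree at most `κ` over `ZMod p` in
its arguments, and `B` and each argument of each of its gates has depth at most `d` outside of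
its gates.  Then `π` has at least `2 ^ κ` distinct subformulas. -/
theorem result (ε : ℝ) (hε : 0 < ε) : ∃ (w : ℕ) (F : ℕ → Fm ℕ),
    (∀ n, (F n).Unsat ∧ (F n).IsCNF w ∧ n ≤ (F n).size) ∧
    ∀ d : ℕ, ∃ c : ℝ, 0 < c ∧ ∃ n₀ : ℕ, ∀ n : ℕ, n₀ ≤ n → ∀ p : ℕ, p.Prime → p ≠ 2 →
      ∀ π : List (Gf ℕ),
        Derives (((F n).size : ℝ) ^ c) ({Gf.ofFm (F n)} ∪
          {A | ((vars A).ncard : ℝ) ≤ ((F n).size : ℝ) ^ (1 - ε) ∧ ∀ x, A.eval x = true}) π →
        (∃ b ∈ π, b.Unsat ∧ (b.conn : ℝ) ≤ ((F n).size : ℝ) ^ c) →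
        (∀ A ∈ π, ∃ (B : Gf ℕ) (σ : ℕ → Gf ℕ), A = B.subst σ ∧
          Tame p d (((F n).size : ℝ) ^ c) B ∧
          ∀ v, ((vars (σ v)).ncard : ℝ) ≤ ((F n).size : ℝ) ^ (1 - ε)) →
        (2 : ℝ) ^ (((F n).size : ℝ) ^ c) ≤ ((subSet π).ncard : ℕ) := by
  obtain ⟨w, F, h1, h2⟩ := FrN.main_exp ε hε
  refine ⟨w, F, h1, fun d => ?_⟩
  obtain ⟨c, hc, n₀, h⟩ := h2 d
  refine ⟨c, hc, n₀, fun n hn p hp hp2 π hπ hb hT => ?_⟩
  obtain ⟨b, hbπ, hb, hbc⟩ := hb
  exact h n hn p hp hp2 b hb hbc π hπ hbπ hT

end Pool.Agent.Results.MP_51bb46_lc.ModGates
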