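import Pool.Agent.Lib.MP_51bb46_lc.RC.Asm

set_option autoImplicit false

namespace Pool.Agent.Results.MP_51bb46_lc.RandomCNF

open Finset Pool.Agent.Lib.MP_51bb46_lc Pool.Agent.Lib.MP_51bb46_lc.RC

open Classical in
/-- **Random k-CNFs are hard for Frege with short lines, at every depth.** For `0 < ε ≤ 1/2` there is `c > 0` such that for
all `A` and all large `k`, all `n ≥ k ^ 10` and all `M` between `(1 + ε) ln 2 * 2 ^ k n` and `k ^ A 2 ^ k n`, all but a
`2 / n` fraction of the k-CNFs with `M` clauses over `n` variables are unsatisfiable and hard: a refutation by formulas of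
any depth, with at most `r` premises per step, in which all but `t` lines have at most
`c k ^ (1/2 - ε) n / ((r + 1) (t + 1))` variable occurrences, has at least `2 ^ (c n / (k ^ (1 - ε) (r + 1) (t + 1)))`
lines (for `(r + 1) (t + 1) ≤ k`). -/
theorem result (ε : ℝ) (h0 : 0 < ε) (h1 : ε ≤ 1 / 2) : ∃ c : ℝ, 0 < c ∧ ∀ A : ℕ, ∃ k₀ : ℕ, ∀ k n M : ℕ, k₀ ≤ k →
    k ^ 10 ≤ n → (1 + ε) * Real.log 2 * 2 ^ k * n ≤ M → M ≤ k ^ A * 2 ^ k * n →
      n * (univ.filter fun F : Fin M × Fin k → Fin n × Bool => ¬ (Unsat (cnf F) ∧ Hard c ε k (cnf F))).card ≤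
        2 * Fintype.card (Fin M × Fin k → Fin n × Bool) :=
  finalRC ε h0 h1

end Pool.Agent.Results.MP_51bb46_lc.RandomCNF
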